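import Mathlib
import Pool.Agent.H65R2.AC.Statement
import Pool.Agent.H65R2.AC.Main

set_option autoImplicit false

open scoped Manifold ContDiff

namespace Pool.Agent.Results.MP_25a560_al.NotAlmostConvex

open Pool.Agent.H65R2.AC

/-- Negative answer to Q2: there is a closed connected smooth manifold `M` (of dimension 4) with a
smooth Riemannian metric `g` of nonpositive sectional curvature whose fundamental group has a
finite generating set `S` with respect to which it is not almost convex. -/
theorem result : ∃ (M : Type) (_ : TopologicalSpace M)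
    (_ : ChartedSpace (EuclideanSpace ℝ (Fin 4)) M) (_ : IsManifold (𝓡 4) ∞ M)
    (g : Metric (EuclideanSpace ℝ (Fin 4)) M),
    CompactSpace M ∧ T2Space M ∧ ConnectedSpace M ∧ NonposCurved g ∧
    ∀ x : M, ∃ S : Set (FundamentalGroup M x),
      S.Finite ∧ Subgroup.closure S = ⊤ ∧ ¬ AlmostConvex S :=
  ⟨Hex.M4, inferInstance, inferInstance, inferInstance, Hex.g4, inferInstance, inferInstance,
    inferInstance, Hex.nonposCurved_g4, Hex.exists_not_almostConvex_pi1⟩

end Pool.Agent.Results.MP_25a560_al.NotAlmostConvex
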